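import Mathlib
import Pool.Agent.TH7.DH.Fin

set_option autoImplicit false

/-!
# Positivity, symmetry and the four-cycle inequality for the limit kernel
-/

namespace Pool.Agent.R814.PHJ

open Finset Filter Topology Pool.Agent.TH7.DH

variable {d : ℕ}

lemma KN_psdJ {N : ℕ} (h : Finset (Fin d → Fin N) → ℝ) (ι : Type) [Fintype ι] {J : Type}
    [Fintype J] (t : J → ℝ) (P : J → (Fin d → ι) → Prop) :
    0 ≤ ∑ i, ∑ j, t i * t j * KN N h h ι (P i) (P j) := by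
  classical
  have h0 : 0 ≤ av (fun φ : ι ↪ Fin N => av (fun A : Finset (Fin d → Fin N) =>
      (∑ i, t i * h (ow φ (P i) A)) ^ 2)) :=
    av_nonneg fun φ => av_nonneg fun A => sq_nonneg _
  have h1 : ∀ (φ : ι ↪ Fin N) (A : Finset (Fin d → Fin N)),
      (∑ i, t i * h (ow φ (P i) A)) ^ 2
        = ∑ i, ∑ j, t i * t j * (h (ow φ (P i) A) * h (ow φ (P j) A)) := by
    intro φ A
    rw [sq, sum_mul_sum]
    refine sum_congr rfl fun i _ => sum_congr rfl fun j _ => ?_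
    ring
  simp only [h1, av_sum, av_smul] at h0
  exact h0

theorem psdJ (S : Sys d) (hS : S.h₁ = S.h₂) (ι : Type) [Fintype ι] {J : Type} [Fintype J]
    (t : J → ℝ) (P : J → (Fin d → ι) → Prop) :
    0 ≤ ∑ i, ∑ j, t i * t j * S.K ι (P i) (P j) := by
  refine ge_of_tendsto' (f := fun N => ∑ i, ∑ j, t i * t j
    * KN N (S.h₁ N) (S.h₂ N) ι (P i) (P j)) (b := 0) (x := (S.V : Filter ℕ)) ?_ ?_
  · exact tendsto_finsetSum _ fun i _ => tendsto_finsetSum _ fun j _ =>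
      (S.tendsto ι (P i) (P j)).const_mul _
  · intro N
    have : S.h₂ N = S.h₁ N := by rw [hS]
    rw [this]
    exact KN_psdJ (S.h₁ N) ι t P

lemma K_symm (S : Sys d) (hS : S.h₁ = S.h₂) (ι : Type) [Fintype ι]
    (P Q : (Fin d → ι) → Prop) : S.K ι P Q = S.K ι Q P := by
  unfold Sys.K
  congr 1
  funext N
  have : S.h₂ N = S.h₁ N := by rw [hS]
  rw [this]
  unfold KN
  congr 1
  funext φ
  congr 1
  funext A
  ring

/-- the system of the indicators of the families `S N` -/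
noncomputable def raw (V : Ultrafilter ℕ) (hV : (V : Filter ℕ) ≤ atTop)
    (S : (N : ℕ) → Finset (Finset (Fin d → Fin N))) : Sys d :=
  ⟨V, hV, fun N A => ind (S N) A, fun N A => ind (S N) A, fun _ _ => ind_abs _ _,
    fun _ _ => ind_abs _ _⟩

variable {V : Ultrafilter ℕ} {hV : (V : Filter ℕ) ≤ atTop}
  {S : (N : ℕ) → Finset (Finset (Fin d → Fin N))}

lemma raw_nonneg (ι : Type) [Fintype ι] (P Q : (Fin d → ι) → Prop) :
    0 ≤ (raw V hV S).K ι P Q := by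
  refine ge_of_tendsto' ((raw V hV S).tendsto ι P Q) fun N => ?_
  exact av_nonneg fun φ => av_nonneg fun A => mul_nonneg (ind_nonneg _ _) (ind_nonneg _ _)

lemma raw_zero (ι : Type) [Fintype ι] (P Q : (Fin d → ι) → Prop)
    (h : ∀ (N : ℕ) (φ : ι ↪ Fin N) (A : Finset (Fin d → Fin N)),
      ¬ (ow φ P A ∈ S N ∧ ow φ Q A ∈ S N)) : (raw V hV S).K ι P Q = 0 := by
  refine tendsto_nhds_unique ((raw V hV S).tendsto ι P Q) ?_
  refine tendsto_const_nhds.congr fun N => ?_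
  have e2 : ∀ (φ : ι ↪ Fin N) (A : Finset (Fin d → Fin N)),
      (raw V hV S).h₁ N (ow φ P A) * (raw V hV S).h₂ N (ow φ Q A) = 0 := by
    intro φ A
    have := h N φ A
    change ind (S N) (ow φ P A) * ind (S N) (ow φ Q A) = 0
    unfold ind
    split_ifs with h1 h2
    · exact (this ⟨h1, h2⟩).elim
    · simp
    · simp
    · simp
  unfold KN
  simp only [e2]
  simp [av]

lemma pw {x0 x1 x2 x3 : ℝ} (h0 : x0 = 0 ∨ x0 = 1) (h1 : x1 = 0 ∨ x1 = 1) (h2 : x2 = 0 ∨ x2 = 1)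
    (h3 : x3 = 0 ∨ x3 = 1) (h01 : x0 * x1 = 0) (h02 : x0 * x2 = 0) (h13 : x1 * x3 = 0)
    (h23 : x2 * x3 = 0) :
    0 ≤ 1 + (x1 * x2 + (x0 * x3 + ((-1) * (x0 * x0) + ((-1) * (x1 * x1) + ((-1) * (x2 * x2)
      + (-1) * (x3 * x3)))))) := by
  rcases h0 with rfl | rfl <;> rcases h1 with rfl | rfl <;> rcases h2 with rfl | rfl <;>
    rcases h3 with rfl | rfl <;> norm_num at *

lemma ind01 {X : Type} (S : Finset X) (A : X) : ind S A = 0 ∨ ind S A = 1 := by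
  unfold ind; split_ifs <;> simp

lemma ind_excl {X : Type} {S : Finset X} {A B : X} (h : ¬ (A ∈ S ∧ B ∈ S)) :
    ind S A * ind S B = 0 := by
  unfold ind
  split_ifs with h1 h2
  · exact (h ⟨h1, h2⟩).elim
  · simp
  · simp
  · simp

/-- The four-cycle inequality. -/
theorem four (hd : 1 ≤ d) (ι : Type) [Fintype ι] (P₀ P₁ P₂ P₃ : (Fin d → ι) → Prop)
    (h01 : ∀ (N : ℕ) (φ : ι ↪ Fin N) (A : Finset (Fin d → Fin N)),
      ¬ (ow φ P₀ A ∈ S N ∧ ow φ P₁ A ∈ S N))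
    (h02 : ∀ (N : ℕ) (φ : ι ↪ Fin N) (A : Finset (Fin d → Fin N)),
      ¬ (ow φ P₀ A ∈ S N ∧ ow φ P₂ A ∈ S N))
    (h13 : ∀ (N : ℕ) (φ : ι ↪ Fin N) (A : Finset (Fin d → Fin N)),
      ¬ (ow φ P₁ A ∈ S N ∧ ow φ P₃ A ∈ S N))
    (h23 : ∀ (N : ℕ) (φ : ι ↪ Fin N) (A : Finset (Fin d → Fin N)),
      ¬ (ow φ P₂ A ∈ S N ∧ ow φ P₃ A ∈ S N)) :
    4 * (raw V hV S).v ≤ 1 + (raw V hV S).K ι P₁ P₂ + (raw V hV S).K ι P₀ P₃ := by
  classical
  set R := raw V hV S with hR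
  have e0 := R.K_same ι hd P₀ P₀ fun _ => Iff.rfl
  have e1 := R.K_same ι hd P₁ P₁ fun _ => Iff.rfl
  have e2 := R.K_same ι hd P₂ P₂ fun _ => Iff.rfl
  have e3 := R.K_same ι hd P₃ P₃ fun _ => Iff.rfl
  have key : R.K ι P₀ P₀ + R.K ι P₁ P₁ + R.K ι P₂ P₂ + R.K ι P₃ P₃
      ≤ 1 + R.K ι P₁ P₂ + R.K ι P₀ P₃ := by
    refine le_of_tendsto_of_tendsto'
      ((((R.tendsto ι P₀ P₀).add (R.tendsto ι P₁ P₁)).add (R.tendsto ι P₂ P₂)).add
        (R.tendsto ι P₃ P₃))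
      ((tendsto_const_nhds.add (R.tendsto ι P₁ P₂)).add (R.tendsto ι P₀ P₃)) fun N => ?_
    have hone : av (fun _ : ι ↪ Fin N => av (fun _ : Finset (Fin d → Fin N) => (1 : ℝ))) ≤ 1 :=
      (abs_le.1 (av_abs_le zero_le_one fun _ => av_abs_le zero_le_one fun _ => by simp)).2
    have h0 : 0 ≤ av (fun φ : ι ↪ Fin N => av (fun A : Finset (Fin d → Fin N) =>
        1 + (ind (S N) (ow φ P₁ A) * ind (S N) (ow φ P₂ A)
          + (ind (S N) (ow φ P₀ A) * ind (S N) (ow φ P₃ A)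
          + ((-1) * (ind (S N) (ow φ P₀ A) * ind (S N) (ow φ P₀ A))
          + ((-1) * (ind (S N) (ow φ P₁ A) * ind (S N) (ow φ P₁ A))
          + ((-1) * (ind (S N) (ow φ P₂ A) * ind (S N) (ow φ P₂ A))
          + (-1) * (ind (S N) (ow φ P₃ A) * ind (S N) (ow φ P₃ A))))))))) := by
      exact av_nonneg fun φ => av_nonneg fun A => pw (ind01 _ _) (ind01 _ _) (ind01 _ _)
        (ind01 _ _) (ind_excl (h01 N φ A)) (ind_excl (h02 N φ A)) (ind_excl (h13 N φ A))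
        (ind_excl (h23 N φ A))
    simp only [av_add, av_smul] at h0
    have k : ∀ P Q : (Fin d → ι) → Prop,
        av (fun φ : ι ↪ Fin N => av (fun A => ind (S N) (ow φ P A) * ind (S N) (ow φ Q A)))
          = KN N (R.h₁ N) (R.h₂ N) ι P Q := fun P Q => rfl
    rw [k, k, k, k, k, k] at h0
    linarith
  linarith

lemma v_nonneg : 0 ≤ (raw V hV S).v := raw_nonneg _ _ _

lemma v_le : (raw V hV S).v ≤ 1 :=
  (abs_le.1 ((raw V hV S).K_abs Empty (fun _ => True) (fun _ => True))).2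

/-- the centred system -/
noncomputable def cen (V : Ultrafilter ℕ) (hV : (V : Filter ℕ) ≤ atTop)
    (S : (N : ℕ) → Finset (Finset (Fin d → Fin N))) (D : ℝ) (h0 : 0 ≤ D) (h1 : D ≤ 1) : Sys d :=
  ⟨V, hV, fun N A => ind (S N) A - D, fun N A => ind (S N) A - D, fun N A => by
    have h1 := ind_nonneg (S N) A
    have h2 := ind_le (S N) A
    rw [abs_le]; constructor <;> linarith, fun N A => by
    have h1 := ind_nonneg (S N) A
    have h2 := ind_le (S N) A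
    rw [abs_le]; constructor <;> linarith⟩

theorem cen_K (hd : 1 ≤ d) {D : ℝ} (h0 : 0 ≤ D) (h1 : D ≤ 1) (hD : D = (raw V hV S).v) (ι : Type)
    [Fintype ι] (P Q : (Fin d → ι) → Prop) :
    (cen V hV S D h0 h1).K ι P Q = (raw V hV S).K ι P Q - D ^ 2 := by
  classical
  set R := raw V hV S with hR
  have eP := R.K_same ι hd P P fun _ => Iff.rfl
  have eQ := R.K_same ι hd Q Q fun _ => Iff.rfl
  refine tendsto_nhds_unique ((cen V hV S D h0 h1).tendsto ι P Q) ?_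
  have h2 : Tendsto (fun N => KN N (R.h₁ N) (R.h₂ N) ι P Q + ((-D) * KN N (R.h₁ N) (R.h₂ N) ι P P
      + ((-D) * KN N (R.h₁ N) (R.h₂ N) ι Q Q + D ^ 2))) V
      (𝓝 (R.K ι P Q + ((-D) * R.K ι P P + ((-D) * R.K ι Q Q + D ^ 2)))) :=
    (R.tendsto ι P Q).add (((R.tendsto ι P P).const_mul _).add
      (((R.tendsto ι Q Q).const_mul _).add tendsto_const_nhds))
  have e : R.K ι P Q + ((-D) * R.K ι P P + ((-D) * R.K ι Q Q + D ^ 2)) = R.K ι P Q - D ^ 2 := by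
    rw [eP, eQ, ← hD]
    ring
  rw [e] at h2
  refine h2.congr' ?_
  have hlarge : ∀ᶠ N in (V : Filter ℕ), Fintype.card ι ≤ N := hV (eventually_ge_atTop _)
  filter_upwards [hlarge] with N hN
  have : Nonempty (ι ↪ Fin N) := by
    refine Function.Embedding.nonempty_of_card_le ?_
    rwa [Fintype.card_fin]
  unfold KN
  have e1 : ∀ (φ : ι ↪ Fin N) (A : Finset (Fin d → Fin N)),
      (cen V hV S D h0 h1).h₁ N (ow φ P A) * (cen V hV S D h0 h1).h₂ N (ow φ Q A)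
      = R.h₁ N (ow φ P A) * R.h₂ N (ow φ Q A) + ((-D) * (R.h₁ N (ow φ P A) * R.h₂ N (ow φ P A))
        + ((-D) * (R.h₁ N (ow φ Q A) * R.h₂ N (ow φ Q A)) + D ^ 2)) := by
    intro φ A
    change (ind (S N) (ow φ P A) - D) * (ind (S N) (ow φ Q A) - D)
      = ind (S N) (ow φ P A) * ind (S N) (ow φ Q A)
        + ((-D) * (ind (S N) (ow φ P A) * ind (S N) (ow φ P A))
        + ((-D) * (ind (S N) (ow φ Q A) * ind (S N) (ow φ Q A)) + D ^ 2))
    rw [ind_mul_self, ind_mul_self]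
    ring
  simp only [e1, av_add, av_smul, av_const]

end Pool.Agent.R814.PHJ
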