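import Mathlib
import Pool.Agent.R814.PHJ.Base

set_option autoImplicit false

/-!
# Patterns of disjoint cubes at several places
-/

namespace Pool.Agent.R814.PHJ

open Finset Filter Topology Pool.Agent.TH7.DH

variable {d : ℕ}

/-- The union of the cubes of side `u i` at the places `i` with `F i`. -/
def pp {J : Type} {T : ℕ} (u : J → ℕ) (F : J → Prop) : (Fin d → J × Fin T) → Prop :=
  fun c => ∃ i, F i ∧ ∀ t, (c t).1 = i ∧ ((c t).2 : ℕ) < u i

/-- all coordinates in the first block -/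
def PL (u v : ℕ) : (Fin d → Fin u ⊕ Fin v) → Prop := fun c => ∀ t, ∃ x, c t = Sum.inl x

/-- all coordinates in the second block -/
def PR (u v : ℕ) : (Fin d → Fin u ⊕ Fin v) → Prop := fun c => ∀ t, ∃ x, c t = Sum.inr x

/-- kernel of two disjoint cubes -/
noncomputable def X (S : Sys d) (u v : ℕ) : ℝ := S.K (Fin u ⊕ Fin v) (PL u v) (PR u v)

/-- kernel of the empty set and the union of two disjoint cubes -/
noncomputable def X' (S : Sys d) (u v : ℕ) : ℝ :=
  S.K (Fin u ⊕ Fin v) (fun _ => False) (fun c => PL u v c ∨ PR u v c)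

/-- the embedding of two blocks at two different places -/
def emb {J : Type} {T : ℕ} (i j : J) (hij : i ≠ j) (a b : ℕ) (ha : a ≤ T) (hb : b ≤ T) :
    Fin a ⊕ Fin b ↪ J × Fin T where
  toFun := Sum.elim (fun x => (i, Fin.castLE ha x)) (fun x => (j, Fin.castLE hb x))
  inj' := by
    rintro (x | x) (y | y) h
    · simp only [Sum.elim_inl, Prod.mk.injEq, true_and] at h
      rw [Fin.castLE_injective ha h]
    · simp only [Sum.elim_inl, Sum.elim_inr, Prod.mk.injEq] at h
      exact (hij h.1).elim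
    · simp only [Sum.elim_inl, Sum.elim_inr, Prod.mk.injEq] at h
      exact (hij h.1.symm).elim
    · simp only [Sum.elim_inr, Prod.mk.injEq, true_and] at h
      rw [Fin.castLE_injective hb h]

lemma mem_emb {J : Type} {T : ℕ} {i j : J} {hij : i ≠ j} {a b : ℕ} {ha : a ≤ T} {hb : b ≤ T}
    {p : J × Fin T} (h : (p.1 = i ∧ (p.2 : ℕ) < a) ∨ (p.1 = j ∧ (p.2 : ℕ) < b)) :
    p ∈ Set.range (emb i j hij a b ha hb) := by
  rcases p with ⟨k, z⟩
  rcases h with ⟨h1, h2⟩ | ⟨h1, h2⟩
  · simp only at h1 h2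
    subst h1
    exact ⟨Sum.inl ⟨z, h2⟩, rfl⟩
  · simp only at h1 h2
    subst h1
    exact ⟨Sum.inr ⟨z, h2⟩, rfl⟩

/-- the pattern restricted to two places -/
lemma pp_emb (hd : 1 ≤ d) {J : Type} {T : ℕ} (u : J → ℕ) (F : J → Prop) {i j : J} (hij : i ≠ j)
    (ha : u i ≤ T) (hb : u j ≤ T) (c : Fin d → Fin (u i) ⊕ Fin (u j)) :
    pp (T := T) u F (fun t => emb i j hij (u i) (u j) ha hb (c t)) ↔
      (F i ∧ PL (u i) (u j) c) ∨ (F j ∧ PR (u i) (u j) c) := by
  constructor
  · rintro ⟨k, hk, h'⟩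
    have h : ∀ t, ((emb i j hij (u i) (u j) ha hb) (c t)).1 = k ∧
      (((emb i j hij (u i) (u j) ha hb) (c t)).2 : ℕ) < u k := h'
    have h0 := (h ⟨0, hd⟩).1
    rcases hc : c ⟨0, hd⟩ with x | x
    · rw [hc] at h0
      have h0 : i = k := h0
      subst h0
      refine Or.inl ⟨hk, fun t => ?_⟩
      rcases hct : c t with y | y
      · exact ⟨y, rfl⟩
      · have h1 := (h t).1
        rw [hct] at h1
        have h1 : j = i := h1
        exact (hij h1.symm).elim
    · rw [hc] at h0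
      have h0 : j = k := h0
      subst h0
      refine Or.inr ⟨hk, fun t => ?_⟩
      rcases hct : c t with y | y
      · have h1 := (h t).1
        rw [hct] at h1
        have h1 : i = j := h1
        exact (hij h1).elim
      · exact ⟨y, rfl⟩
  · rintro (⟨hk, h⟩ | ⟨hk, h⟩)
    · refine ⟨i, hk, fun t => ?_⟩
      obtain ⟨x, hx⟩ := h t
      change ((emb i j hij (u i) (u j) ha hb) (c t)).1 = i ∧
        (((emb i j hij (u i) (u j) ha hb) (c t)).2 : ℕ) < u i
      rw [hx]
      exact ⟨rfl, x.2⟩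
    · refine ⟨j, hk, fun t => ?_⟩
      obtain ⟨x, hx⟩ := h t
      change ((emb i j hij (u i) (u j) ha hb) (c t)).1 = j ∧
        (((emb i j hij (u i) (u j) ha hb) (c t)).2 : ℕ) < u j
      rw [hx]
      exact ⟨rfl, x.2⟩

/-- reduction to two places -/
lemma K_two (S : Sys d) (hd : 1 ≤ d) {J : Type} [Fintype J] {T : ℕ} (u : J → ℕ) (F F' : J → Prop)
    {i j : J} (hij : i ≠ j) (ha : u i ≤ T) (hb : u j ≤ T)
    (hF : ∀ k, k ≠ i → k ≠ j → (F k ↔ F' k)) :
    S.K (J × Fin T) (pp u F) (pp u F')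
      = S.K (Fin (u i) ⊕ Fin (u j))
        (fun c => (F i ∧ PL (u i) (u j) c) ∨ (F j ∧ PR (u i) (u j) c))
        (fun c => (F' i ∧ PL (u i) (u j) c) ∨ (F' j ∧ PR (u i) (u j) c)) := by
  rw [S.K_loc (emb i j hij (u i) (u j) ha hb)]
  · exact S.K_congr (fun c => pp_emb hd u F hij ha hb c) (fun c => pp_emb hd u F' hij ha hb c)
  · rintro c ⟨t, ht⟩
    have key : ∀ k, (∀ t, (c t).1 = k ∧ ((c t).2 : ℕ) < u k) → k ≠ i ∧ k ≠ j := by
      intro k hk
      refine ⟨?_, ?_⟩
      · rintro rfl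
        exact ht (mem_emb (Or.inl (hk t)))
      · rintro rfl
        exact ht (mem_emb (Or.inr (hk t)))
    constructor
    · rintro ⟨k, h1, h2⟩
      obtain ⟨h3, h4⟩ := key k h2
      exact ⟨k, (hF k h3 h4).1 h1, h2⟩
    · rintro ⟨k, h1, h2⟩
      obtain ⟨h3, h4⟩ := key k h2
      exact ⟨k, (hF k h3 h4).2 h1, h2⟩

lemma K_swap (S : Sys d) (hd : 1 ≤ d) {J : Type} [Fintype J] {T : ℕ} (u : J → ℕ) (F F' : J → Prop)
    {i j : J} (hij : i ≠ j) (ha : u i ≤ T) (hb : u j ≤ T)
    (hF : ∀ k, k ≠ i → k ≠ j → (F k ↔ F' k)) (h1 : F i) (h2 : ¬ F j) (h3 : ¬ F' i) (h4 : F' j) :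
    S.K (J × Fin T) (pp u F) (pp u F') = X S (u i) (u j) := by
  rw [K_two S hd u F F' hij ha hb hF]
  unfold X
  refine S.K_congr (fun c => ?_) (fun c => ?_) <;> tauto

lemma K_add (S : Sys d) (hd : 1 ≤ d) {J : Type} [Fintype J] {T : ℕ} (u : J → ℕ) (F F' : J → Prop)
    {i j : J} (hij : i ≠ j) (ha : u i ≤ T) (hb : u j ≤ T)
    (hF : ∀ k, k ≠ i → k ≠ j → (F k ↔ F' k)) (h1 : ¬ F i) (h2 : ¬ F j) (h3 : F' i) (h4 : F' j) :
    S.K (J × Fin T) (pp u F) (pp u F') = X' S (u i) (u j) := by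
  rw [K_two S hd u F F' hij ha hb hF]
  unfold X'
  refine S.K_congr (fun c => ?_) (fun c => ?_) <;> tauto

/-- one cube of side `s` at the place `k` -/
def qq {J : Type} {T : ℕ} (k : J) (s : ℕ) : (Fin d → J × Fin T) → Prop :=
  fun c => ∀ t, (c t).1 = k ∧ ((c t).2 : ℕ) < s

lemma qq_pp {J : Type} {T : ℕ} (u : J → ℕ) (k : J) (c : Fin d → J × Fin T) :
    qq k (u k) c ↔ pp u (fun i => i = k) c := by
  constructor
  · intro h
    exact ⟨k, rfl, h⟩
  · rintro ⟨i, rfl, h⟩
    exact h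

lemma K_disj (S : Sys d) (hd : 1 ≤ d) {T : ℕ} (s s' : ℕ) (hs : s ≤ T) (hs' : s' ≤ T) :
    S.K (Bool × Fin T) (qq false s) (qq true s') = X S s s' := by
  have h := K_swap S hd (J := Bool) (T := T) (fun b => cond b s' s) (fun i => i = false)
    (fun i => i = true) (i := false) (j := true) (by decide) hs hs' (by decide) rfl
    (by decide) (by decide) rfl
  refine Eq.trans (S.K_congr (fun c => ?_) (fun c => ?_)) h
  · exact qq_pp (fun b => cond b s' s) false c
  · exact qq_pp (fun b => cond b s' s) true c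

/-- the kernel of nested cubes -/
lemma K_nest (S : Sys d) {J : Type} [Fintype J] {T : ℕ} (k : J) (s a : ℕ) (h : s + a ≤ T) :
    S.K (J × Fin T) (qq k s) (qq k (s + a)) = S.κ 1 (Fin a) (fun _ => 0) s := by
  have hinj : Function.Injective (Sum.elim (fun x : Fin a => (k, (⟨s + x, by omega⟩ : Fin T)))
      (fun x : Fin s => (k, (⟨x, by omega⟩ : Fin T)))) := by
    rintro (x | x) (y | y) hxy <;>
      simp only [Sum.elim_inl, Sum.elim_inr, Prod.mk.injEq, true_and, Fin.mk.injEq] at hxy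
    · rw [Fin.ext (by omega : (x : ℕ) = y)]
    · have := y.2
      omega
    · have := x.2
      omega
    · rw [Fin.ext hxy]
  rw [S.K_loc (ι' := Fin a ⊕ Fin s) ⟨_, hinj⟩]
  · unfold Sys.κ Sys.Φ
    refine S.K_congr ?_ ?_
    · intro c
      simp only [qq, Hit, Function.Embedding.coeFn_mk]
      constructor
      · intro h1 h2
        obtain ⟨t, ht⟩ := h2 0 Nat.one_pos
        rcases hc : c t with x | x
        · have h3 := (h1 t).2
          rw [hc] at h3
          simp only [Sum.elim_inl] at h3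
          omega
        · rw [hc] at ht
          simp at ht
      · intro h1 t
        rcases hc : c t with x | x
        · refine (h1 fun i hi => ⟨t, ?_⟩).elim
          rw [hc]
          simp only [Sum.elim_inl]
          omega
        · simp
    · intro c
      simp only [qq, Function.Embedding.coeFn_mk, iff_true]
      intro t
      rcases hc : c t with x | x
      · simp
      · have := x.2
        simp only [Sum.elim_inr, true_and]
        omega
  · rintro c ⟨t, ht⟩
    have h1 : ¬ ((c t).1 = k ∧ ((c t).2 : ℕ) < s + a) := by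
      rintro ⟨h1, h2⟩
      apply ht
      by_cases h3 : ((c t).2 : ℕ) < s
      · refine ⟨Sum.inr ⟨(c t).2, h3⟩, ?_⟩
        simp only [Function.Embedding.coeFn_mk, Sum.elim_inr]
        rw [← h1]
      · refine ⟨Sum.inl ⟨(c t).2 - s, by omega⟩, ?_⟩
        simp only [Function.Embedding.coeFn_mk, Sum.elim_inl]
        rw [← h1]
        refine Prod.ext rfl (Fin.ext ?_)
        simp only
        omega
    constructor
    · intro h2
      exact (h1 ⟨(h2 t).1, by have := (h2 t).2; omega⟩).elim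
    · intro h2
      exact (h1 (h2 t)).elim

end Pool.Agent.R814.PHJ
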