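import Mathlib
import Pool.Agent.R814.PHJ.Pat

set_option autoImplicit false

/-!
# The bound for the limit density
-/

namespace Pool.Agent.R814.PHJ

open Finset Filter Topology Pool.Agent.TH7.DH

variable {d : ℕ}

/-- In `S N` no two members are `A` and `A` with a planted empty cube filled in. -/
def Adm (S : (N : ℕ) → Finset (Finset (Fin d → Fin N))) : Prop :=
  ∀ (N : ℕ) (ι : Type) [Fintype ι] (φ : ι ↪ Fin N) (A : Finset (Fin d → Fin N))
    (P : (Fin d → ι) → Prop) (γ : Finset ι), γ.Nonempty →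
    (∀ c : Fin d → ι, (∀ t, c t ∈ γ) → ¬ P c) →
    ¬ (ow φ P A ∈ S N ∧ ow φ (fun c => P c ∨ ∀ t, c t ∈ γ) A ∈ S N)

variable {V : Ultrafilter ℕ} {hV : (V : Filter ℕ) ≤ atTop}
  {S : (N : ℕ) → Finset (Finset (Fin d → Fin N))}

lemma excl (hS : Adm S) {ι : Type} [Fintype ι] {P Q : (Fin d → ι) → Prop} (γ : Finset ι)
    (hγ : γ.Nonempty) (hP : ∀ c : Fin d → ι, (∀ t, c t ∈ γ) → ¬ P c)
    (hQ : ∀ c : Fin d → ι, Q c ↔ P c ∨ ∀ t, c t ∈ γ) (N : ℕ) (φ : ι ↪ Fin N)
    (A : Finset (Fin d → Fin N)) : ¬ (ow φ P A ∈ S N ∧ ow φ Q A ∈ S N) := by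
  have h : Q = fun c => P c ∨ ∀ t, c t ∈ γ := funext fun c => propext (hQ c)
  rw [h]
  exact hS N ι φ A P γ hγ hP

lemma PL_PR (hd : 1 ≤ d) {u v : ℕ} {c : Fin d → Fin u ⊕ Fin v} (h1 : PL u v c) (h2 : PR u v c) :
    False := by
  obtain ⟨x, hx⟩ := h1 ⟨0, hd⟩
  obtain ⟨y, hy⟩ := h2 ⟨0, hd⟩
  rw [hx] at hy
  cases hy

lemma mem_PL {u v : ℕ} (c : Fin d → Fin u ⊕ Fin v) :
    (∀ t, c t ∈ (univ : Finset (Fin u)).map (Function.Embedding.inl : Fin u ↪ Fin u ⊕ Fin v))
      ↔ PL u v c := by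
  refine forall_congr' fun t => ?_
  rw [Finset.mem_map]
  constructor
  · rintro ⟨x, -, hx⟩
    exact ⟨x, hx.symm⟩
  · rintro ⟨x, hx⟩
    exact ⟨x, mem_univ _, hx.symm⟩

lemma mem_PR {u v : ℕ} (c : Fin d → Fin u ⊕ Fin v) :
    (∀ t, c t ∈ (univ : Finset (Fin v)).map (Function.Embedding.inr : Fin v ↪ Fin u ⊕ Fin v))
      ↔ PR u v c := by
  refine forall_congr' fun t => ?_
  rw [Finset.mem_map]
  constructor
  · rintro ⟨x, -, hx⟩
    exact ⟨x, hx.symm⟩
  · rintro ⟨x, hx⟩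
    exact ⟨x, mem_univ _, hx.symm⟩

theorem four_X (hS : Adm S) (hd : 1 ≤ d) (u v : ℕ) (hu : 1 ≤ u) (hv : 1 ≤ v) :
    4 * (raw V hV S).v ≤ 1 + X (raw V hV S) u v + X' (raw V hV S) u v := by
  classical
  have nu : ((univ : Finset (Fin u)).map
      (Function.Embedding.inl : Fin u ↪ Fin u ⊕ Fin v)).Nonempty :=
    Finset.Nonempty.map (s := (univ : Finset (Fin u))) ⟨⟨0, hu⟩, mem_univ _⟩
  have nv : ((univ : Finset (Fin v)).map
      (Function.Embedding.inr : Fin v ↪ Fin u ⊕ Fin v)).Nonempty :=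
    Finset.Nonempty.map (s := (univ : Finset (Fin v))) ⟨⟨0, hv⟩, mem_univ _⟩
  refine four hd (Fin u ⊕ Fin v) (fun _ => False) (PL u v) (PR u v)
    (fun c => PL u v c ∨ PR u v c) ?_ ?_ ?_ ?_
  · refine excl hS _ nu (fun c _ => id) fun c => ?_
    rw [mem_PL, false_or]
  · refine excl hS _ nv (fun c _ => id) fun c => ?_
    rw [mem_PR, false_or]
  · refine excl hS _ nv (fun c hc h => PL_PR hd h ((mem_PR c).1 hc)) fun c => ?_
    rw [mem_PR]
  · refine excl hS _ nu (fun c hc h => PL_PR hd ((mem_PL c).1 hc) h) fun c => ?_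
    rw [mem_PL, or_comm]

/-- the places which carry a cube -/
def Fs {n : ℕ} : Fin n ⊕ Fin n → (Fin n ⊕ Fin n → Prop)
  | Sum.inl g => fun k => (∃ g', k = Sum.inl g') ∧ k ≠ Sum.inl g
  | Sum.inr a => fun k => (∃ g', k = Sum.inl g') ∨ k = Sum.inr a

theorem psd2 (hd : 1 ≤ d) (n : ℕ) (u : Fin n → ℕ) :
    ∑ g, ∑ a, X' (raw V hV S) (u g) (u a)
      ≤ ∑ g, ∑ a, X (raw V hV S) (u g) (u a) + n * (raw V hV S).v := by
  classical
  set R := raw V hV S with hR
  set T := ∑ g, u g with hT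
  have hu : ∀ g, u g ≤ T := fun g => Finset.single_le_sum (fun _ _ => Nat.zero_le _) (mem_univ g)
  set u' : Fin n ⊕ Fin n → ℕ := Sum.elim u u with hu'
  have h0 := psdJ R rfl ((Fin n ⊕ Fin n) × Fin T)
    (Sum.elim (fun _ => (1 : ℝ)) (fun _ => (-1 : ℝ)) : Fin n ⊕ Fin n → ℝ)
    (fun j => pp u' (Fs j))
  have e1 : ∀ g g' : Fin n, R.K ((Fin n ⊕ Fin n) × Fin T) (pp u' (Fs (Sum.inl g)))
      (pp u' (Fs (Sum.inl g'))) ≤ X R (u g') (u g) + (if g = g' then R.v else 0) := by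
    intro g g'
    by_cases hg : g = g'
    · subst hg
      rw [R.K_same _ hd _ _ fun _ => Iff.rfl, if_pos rfl]
      have : 0 ≤ X R (u g) (u g) := raw_nonneg _ _ _
      linarith
    · rw [if_neg hg, add_zero]
      refine (K_swap R hd u' (Fs (Sum.inl g)) (Fs (Sum.inl g')) (i := Sum.inl g')
        (j := Sum.inl g) ?_ (hu g') (hu g) ?_ ?_ ?_ ?_ ?_).le
      · intro h
        exact hg (Sum.inl_injective h).symm
      · intro k h1 h2
        simp only [Fs]
        tauto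
      · exact ⟨⟨g', rfl⟩, fun h => hg (Sum.inl_injective h).symm⟩
      · exact fun h => h.2 rfl
      · exact fun h => h.2 rfl
      · exact ⟨⟨g, rfl⟩, fun h => hg (Sum.inl_injective h)⟩
  have e2 : ∀ a b : Fin n, R.K ((Fin n ⊕ Fin n) × Fin T) (pp u' (Fs (Sum.inr a)))
      (pp u' (Fs (Sum.inr b))) ≤ X R (u a) (u b) + (if a = b then R.v else 0) := by
    intro a b
    by_cases hg : a = b
    · subst hg
      rw [R.K_same _ hd _ _ fun _ => Iff.rfl, if_pos rfl]
      have : 0 ≤ X R (u a) (u a) := raw_nonneg _ _ _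
      linarith
    · rw [if_neg hg, add_zero]
      refine (K_swap R hd u' (Fs (Sum.inr a)) (Fs (Sum.inr b)) (i := Sum.inr a)
        (j := Sum.inr b) ?_ (hu a) (hu b) ?_ ?_ ?_ ?_ ?_).le
      · intro h
        exact hg (Sum.inr_injective h)
      · intro k h1 h2
        simp only [Fs]
        tauto
      · exact Or.inr rfl
      · rintro (⟨x, hx⟩ | h)
        · cases hx
        · exact hg (Sum.inr_injective h).symm
      · rintro (⟨x, hx⟩ | h)
        · cases hx
        · exact hg (Sum.inr_injective h)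
      · exact Or.inr rfl
  have e3 : ∀ g a : Fin n, R.K ((Fin n ⊕ Fin n) × Fin T) (pp u' (Fs (Sum.inl g)))
      (pp u' (Fs (Sum.inr a))) = X' R (u g) (u a) := by
    intro g a
    refine K_add R hd u' (Fs (Sum.inl g)) (Fs (Sum.inr a)) (i := Sum.inl g)
        (j := Sum.inr a) ?_ (hu g) (hu a) ?_ ?_ ?_ ?_ ?_
    · intro h
      cases h
    · intro k h1 h2
      simp only [Fs]
      tauto
    · exact fun h => h.2 rfl
    · rintro ⟨⟨x, hx⟩, -⟩
      cases hx
    · exact Or.inl ⟨g, rfl⟩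
    · exact Or.inr rfl
  have e4 : ∀ a g : Fin n, R.K ((Fin n ⊕ Fin n) × Fin T) (pp u' (Fs (Sum.inr a)))
      (pp u' (Fs (Sum.inl g))) = X' R (u g) (u a) := by
    intro a g
    rw [K_symm R rfl, e3]
  simp only [Fintype.sum_sum_type, Sum.elim_inl, Sum.elim_inr, one_mul, mul_one, mul_neg,
    neg_mul, sum_neg_distrib, sum_add_distrib, e3, e4] at h0
  have s1 : ∑ g : Fin n, ∑ g' : Fin n, R.K ((Fin n ⊕ Fin n) × Fin T) (pp u' (Fs (Sum.inl g)))
      (pp u' (Fs (Sum.inl g'))) ≤ ∑ g, ∑ a, X R (u g) (u a) + n * R.v := by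
    refine (sum_le_sum fun g _ => sum_le_sum fun g' _ => e1 g g').trans (le_of_eq ?_)
    simp only [sum_add_distrib]
    rw [sum_comm (f := fun g g' => X R (u g') (u g))]
    simp
  have s2 : ∑ g : Fin n, ∑ g' : Fin n, R.K ((Fin n ⊕ Fin n) × Fin T) (pp u' (Fs (Sum.inr g)))
      (pp u' (Fs (Sum.inr g'))) ≤ ∑ g, ∑ a, X R (u g) (u a) + n * R.v := by
    refine (sum_le_sum fun g _ => sum_le_sum fun g' _ => e2 g g').trans (le_of_eq ?_)
    simp only [sum_add_distrib]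
    simp
  have s3 : ∑ a : Fin n, ∑ g : Fin n, X' R (u g) (u a) = ∑ g, ∑ a, X' R (u g) (u a) := sum_comm
  rw [s3] at h0
  linarith

/-- the kernel of the cubes `[0, s)^d` and `[0, s')^d` -/
noncomputable def kk (R : Sys d) (s s' : ℕ) : ℝ :=
  if s = s' then R.v else
    if s < s' then R.κ 1 (Fin (s' - s)) (fun _ => 0) s else R.κ 1 (Fin (s - s')) (fun _ => 0) s'

lemma K_qq (hd : 1 ≤ d) {J : Type} [Fintype J] {T : ℕ} (k : J) (s s' : ℕ) (hs : s ≤ T)
    (hs' : s' ≤ T) :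
    (raw V hV S).K (J × Fin T) (qq k s) (qq k s') = kk (raw V hV S) s s' := by
  unfold kk
  split_ifs with h1 h2
  · subst h1
    exact (raw V hV S).K_same _ hd _ _ fun _ => Iff.rfl
  · have h := K_nest (raw V hV S) (T := T) k s (s' - s) (by omega)
    rwa [Nat.add_sub_cancel' h2.le] at h
  · have h := K_nest (raw V hV S) (T := T) k s' (s - s') (by omega)
    rw [Nat.add_sub_cancel' (by omega : s' ≤ s)] at h
    rw [K_symm (raw V hV S) rfl]
    exact h

theorem psd3 (hd : 1 ≤ d) (n : ℕ) (u : Fin n → ℕ) :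
    ∑ g, ∑ a, X (raw V hV S) (u g) (u a) ≤ ∑ g, ∑ a, kk (raw V hV S) (u g) (u a) := by
  classical
  set R := raw V hV S with hR
  set T := ∑ g, u g with hT
  have hu : ∀ g, u g ≤ T := fun g => Finset.single_le_sum (fun _ _ => Nat.zero_le _) (mem_univ g)
  have h0 := psdJ R rfl (Bool × Fin T)
    (Sum.elim (fun _ => (1 : ℝ)) (fun _ => (-1 : ℝ)) : Fin n ⊕ Fin n → ℝ)
    (Sum.elim (fun g => qq false (u g)) (fun g => qq true (u g)))
  have e1 : ∀ (k : Bool) (g g' : Fin n), R.K (Bool × Fin T) (qq k (u g)) (qq k (u g'))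
      = kk R (u g) (u g') := fun k g g' => K_qq hd k _ _ (hu g) (hu g')
  have e2 : ∀ g g' : Fin n, R.K (Bool × Fin T) (qq false (u g)) (qq true (u g'))
      = X R (u g) (u g') := fun g g' => K_disj R hd _ _ (hu g) (hu g')
  have e3 : ∀ g g' : Fin n, R.K (Bool × Fin T) (qq true (u g)) (qq false (u g'))
      = X R (u g') (u g) := by
    intro g g'
    rw [K_symm R rfl, e2]
  simp only [Fintype.sum_sum_type, Sum.elim_inl, Sum.elim_inr, one_mul, mul_one, mul_neg,
    neg_mul, sum_neg_distrib, sum_add_distrib, e1, e2, e3] at h0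
  have s3 : ∑ a : Fin n, ∑ g : Fin n, X R (u g) (u a) = ∑ g, ∑ a, X R (u g) (u a) := sum_comm
  rw [s3] at h0
  linarith

theorem mean_le (hS : Adm S) (hd : 1 ≤ d) (a : ℕ) (ha : 1 ≤ a) :
    mean ((raw V hV S).κ 1 (Fin a) (fun _ => 0)) ≤ (1 - (1 / 2) ^ (d - 1)) * (raw V hV S).v := by
  classical
  set R := raw V hV S with hR
  have v0 : 0 ≤ R.v := v_nonneg
  have v1 : R.v ≤ 1 := v_le
  set C := cen V hV S R.v v0 v1 with hC
  have hK : ∀ (ι : Type) [Fintype ι] (P Q : (Fin d → ι) → Prop),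
      C.K ι P Q = R.K ι P Q - R.v ^ 2 := fun ι _ P Q => cen_K hd v0 v1 rfl ι P Q
  have hmain := C.main rfl hd (d - 1) (Nat.sub_le _ _) (Fin a) (fun _ => 0) (fun _ => by omega)
  have hd1 : d - (d - 1) = 1 := by omega
  rw [hd1] at hmain
  have h1 : C.κ 1 (Fin a) (fun _ => 0) = fun s => R.κ 1 (Fin a) (fun _ => 0) s + (-R.v ^ 2) := by
    funext s
    unfold Sys.κ Sys.Φ
    rw [hK]
    ring
  have h2 : mean (C.κ 1 (Fin a) (fun _ => 0)) = mean (R.κ 1 (Fin a) (fun _ => 0)) + (-R.v ^ 2) := by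
    rw [h1, mean_add (R.κ_bdd 1 (Fin a) (fun _ => 0)) (bdd_const _), mean_const]
  have h3 : C.κ 1 (Fin a) (fun _ => 0) 0 = - R.v ^ 2 := by
    rw [h1]
    simp only
    have h4 : R.κ 1 (Fin a) (fun _ => 0) 0 = 0 := by
      unfold Sys.κ Sys.Φ
      refine raw_zero _ _ _ ?_
      refine excl hS (univ : Finset (Fin a ⊕ Fin 0)) ⟨Sum.inl ⟨0, ha⟩, mem_univ _⟩ ?_ ?_
      · intro c _ h
        refine h ?_
        intro i hi
        refine ⟨⟨0, hd⟩, ?_⟩
        rcases hc : c ⟨0, hd⟩ with x | x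
        · simp only [Sum.elim_inl]
          omega
        · exact x.elim0
      · intro c
        simp
    rw [h4]
    ring
  have h5 : C.v = R.v - R.v ^ 2 := hK _ _ _
  rw [h2, h3, h5] at hmain
  have h6 := (abs_le.1 hmain).2
  nlinarith

theorem bound (hS : Adm S) (hd : 1 ≤ d) :
    4 * (raw V hV S).v ≤ 1 + 2 * ((1 - (1 / 2) ^ (d - 1)) * (raw V hV S).v) := by
  classical
  set R := raw V hV S with hR
  have v0 : 0 ≤ R.v := v_nonneg
  have v1 : R.v ≤ 1 := v_le
  set L := (1 - (1 / 2) ^ (d - 1)) * R.v with hL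
  have hL0 : 0 ≤ L := mul_nonneg (by
    have : ((1 : ℝ) / 2) ^ (d - 1) ≤ 1 := pow_le_one₀ (by norm_num) (by norm_num)
    linarith) v0
  -- the finite inequality
  have fin : ∀ (n y : ℕ), 4 * R.v * (n : ℝ) ^ 2 ≤ (n : ℝ) ^ 2 + n * R.v
      + 2 * ∑ g : Fin n, ∑ a : Fin n, kk R (y + (1 + g)) (y + (1 + a)) := by
    intro n y
    have h1 := psd2 (V := V) (hV := hV) (S := S) hd n (fun g => y + (1 + (g : ℕ)))
    have h2 := psd3 (V := V) (hV := hV) (S := S) hd n (fun g => y + (1 + (g : ℕ)))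
    have h3 : ∑ _g : Fin n, ∑ _a : Fin n, 4 * R.v ≤ ∑ g : Fin n, ∑ a : Fin n,
        (1 + X R (y + (1 + (g : ℕ))) (y + (1 + (a : ℕ)))
          + X' R (y + (1 + (g : ℕ))) (y + (1 + (a : ℕ)))) :=
      sum_le_sum fun g _ => sum_le_sum fun a _ => four_X hS hd _ _ (by omega) (by omega)
    simp only [sum_add_distrib, sum_const, card_univ, Fintype.card_fin, nsmul_eq_mul, mul_one]
      at h3
    have e : (n : ℝ) * (n * (4 * R.v)) = 4 * R.v * (n : ℝ) ^ 2 := by ring
    rw [e] at h3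
    nlinarith
  -- the mean of the kernels
  have kb : ∀ g a : ℕ, Bdd (fun y => kk R (y + (1 + g)) (y + (1 + a))) := by
    intro g a
    refine ⟨1, fun y => ?_⟩
    change |kk R (y + (1 + g)) (y + (1 + a))| ≤ 1
    unfold kk
    split_ifs
    · rw [abs_of_nonneg v0]; exact v1
    · exact R.K_abs _ _ _
    · exact R.K_abs _ _ _
  have km : ∀ g a : ℕ, mean (fun y => kk R (y + (1 + g)) (y + (1 + a)))
      ≤ L + (if g = a then R.v else 0) := by
    intro g a
    rcases lt_trichotomy g a with h | h | h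
    · have e : (fun y => kk R (y + (1 + g)) (y + (1 + a)))
          = fun y => R.κ 1 (Fin (a - g)) (fun _ => 0) (y + (1 + g)) := by
        funext y
        unfold kk
        rw [if_neg (by omega), if_pos (by omega)]
        have e1 : y + (1 + a) - (y + (1 + g)) = a - g := by omega
        rw [e1]
      rw [e, mean_shift (1 + g) (R.κ_bdd 1 (Fin (a - g)) (fun _ => 0)), if_neg h.ne, add_zero]
      exact mean_le hS hd _ (by omega)
    · subst h
      have e : (fun y => kk R (y + (1 + g)) (y + (1 + g))) = fun _ => R.v := by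
        funext y
        unfold kk
        rw [if_pos rfl]
      rw [e, mean_const, if_pos rfl]
      linarith
    · have e : (fun y => kk R (y + (1 + g)) (y + (1 + a)))
          = fun y => R.κ 1 (Fin (g - a)) (fun _ => 0) (y + (1 + a)) := by
        funext y
        unfold kk
        rw [if_neg (by omega), if_neg (by omega)]
        have e1 : y + (1 + g) - (y + (1 + a)) = g - a := by omega
        rw [e1]
      rw [e, mean_shift (1 + a) (R.κ_bdd 1 (Fin (g - a)) (fun _ => 0)), if_neg h.ne', add_zero]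
      exact mean_le hS hd _ (by omega)
  -- average over `y`
  have avg : ∀ n : ℕ, 4 * R.v * (n : ℝ) ^ 2
      ≤ (n : ℝ) ^ 2 + n * R.v + 2 * ((n : ℝ) ^ 2 * L + n * R.v) := by
    intro n
    have b1 : ∀ g : Fin n, Bdd (fun y => ∑ a : Fin n, kk R (y + (1 + (g : ℕ))) (y + (1 + (a : ℕ)))) :=
      fun g => bdd_sum _ (fun (a : Fin n) y => kk R (y + (1 + (g : ℕ))) (y + (1 + (a : ℕ))))
        fun a _ => kb g a
    have b2 : Bdd (fun y => ∑ g : Fin n, ∑ a : Fin n, kk R (y + (1 + (g : ℕ))) (y + (1 + (a : ℕ)))) :=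
      bdd_sum _ (fun (g : Fin n) y => ∑ a : Fin n, kk R (y + (1 + (g : ℕ))) (y + (1 + (a : ℕ))))
        fun g _ => b1 g
    have h1 := mean_mono (bdd_const _) ((bdd_const ((n : ℝ) ^ 2 + n * R.v)).add (b2.smul 2))
      (fun y => fin n y)
    rw [mean_const, mean_add (bdd_const _) (b2.smul 2), mean_const, mean_smul 2 b2,
      mean_sum _ (fun (g : Fin n) y => ∑ a : Fin n, kk R (y + (1 + (g : ℕ))) (y + (1 + (a : ℕ))))
        fun g _ => b1 g] at h1
    have h2 : ∀ g : Fin n, mean (fun y => ∑ a : Fin n, kk R (y + (1 + (g : ℕ))) (y + (1 + (a : ℕ))))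
        ≤ n * L + R.v := by
      intro g
      rw [mean_sum _ (fun (a : Fin n) y => kk R (y + (1 + (g : ℕ))) (y + (1 + (a : ℕ))))
        fun a _ => kb g a]
      refine (sum_le_sum fun (a : Fin n) (_ : a ∈ univ) => km (g : ℕ) (a : ℕ)).trans ?_
      rw [sum_add_distrib, sum_const, card_univ, Fintype.card_fin, nsmul_eq_mul]
      have h3 : ∑ a : Fin n, (if (g : ℕ) = a then R.v else 0) = R.v := by
        rw [sum_eq_single g]
        · simp
        · intro b _ hb
          rw [if_neg fun h => hb (Fin.ext h.symm)]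
        · intro h
          exact (h (mem_univ _)).elim
      rw [h3]
    have h3 := sum_le_sum fun (g : Fin n) (_ : g ∈ univ) => h2 g
    rw [sum_const, card_univ, Fintype.card_fin, nsmul_eq_mul] at h3
    nlinarith
  -- the limit
  have h4 : ∀ n : ℕ, 4 * R.v ≤ 1 + 2 * L + 3 * R.v * (1 / ((n : ℝ) + 1)) := by
    intro n
    have h5 := avg (n + 1)
    push_cast at h5
    have hn : (0 : ℝ) < (n : ℝ) + 1 := by positivity
    have e : 1 + 2 * L + 3 * R.v * (1 / ((n : ℝ) + 1))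
        = (((n : ℝ) + 1) ^ 2 + ((n : ℝ) + 1) * R.v + 2 * (((n : ℝ) + 1) ^ 2 * L
          + ((n : ℝ) + 1) * R.v)) / ((n : ℝ) + 1) ^ 2 := by
      field_simp
      ring
    rw [e, le_div_iff₀ (by positivity)]
    exact h5
  have h5 : Tendsto (fun n : ℕ => 1 + 2 * L + 3 * R.v * (1 / ((n : ℝ) + 1))) atTop
      (𝓝 (1 + 2 * L + 3 * R.v * 0)) :=
    (tendsto_one_div_add_atTop_nhds_zero_nat.const_mul _).const_add _
  have h6 := ge_of_tendsto' h5 h4
  linarith

end Pool.Agent.R814.PHJ
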